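import Pool.Agent.Helper36.JJ.Defs

/-!
# JJ-11: the Jacobian criterion at algebraically independent points
-/

namespace Pool.Agent.Helper36.JJ

open Finset Module MvPolynomial

/-- the chain rule for polynomials -/
theorem aeval_pderiv_aeval {ι κ : Type} [Fintype κ] (F : κ → MvPolynomial ι ℚ)
    (z : ι → ℝ) (P : MvPolynomial κ ℚ) (i : ι) :
    MvPolynomial.aeval z (pderiv i (MvPolynomial.aeval F P)) =
      ∑ k, MvPolynomial.aeval (fun k => MvPolynomial.aeval z (F k)) (pderiv k P) *
        grad (F k) z i := by
  classical
  induction P using MvPolynomial.induction_on with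
  | C a => simp [MvPolynomial.algebraMap_eq]
  | add p q hp hq =>
    simp only [map_add, hp, hq, add_mul, Finset.sum_add_distrib]
  | mul_X p n hp =>
    have hval : MvPolynomial.aeval z (MvPolynomial.aeval F p) =
        MvPolynomial.aeval (fun k => MvPolynomial.aeval z (F k)) p := by
      rw [← AlgHom.comp_apply, MvPolynomial.comp_aeval]
    simp only [map_mul, MvPolynomial.aeval_X, Derivation.leibniz, smul_eq_mul, map_add,
      hp, hval, add_mul, Finset.sum_add_distrib, pderiv_X]
    congr 1
    · rw [Finset.sum_eq_single n]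
      · simp [grad]
      · intro k _ hk
        simp [Pi.single_eq_of_ne hk.symm]
      · intro h
        exact absurd (Finset.mem_univ n) h
    · rw [Finset.mul_sum]
      refine Finset.sum_congr rfl fun k _ => ?_
      ring

theorem totalDegree_pderiv_le {κ : Type} (P : MvPolynomial κ ℚ) (k : κ) (n : ℕ)
    (h : P.totalDegree ≤ n + 1) : (pderiv k P).totalDegree ≤ n := by
  classical
  refine Finset.sup_le fun m hm => ?_
  rw [MvPolynomial.mem_support_iff, MvPolynomial.coeff_pderiv] at hm
  have h1 : m + Finsupp.single k 1 ∈ P.support := by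
    rw [MvPolynomial.mem_support_iff]
    intro h0
    exact hm (by rw [h0, zero_mul])
  have h2 := MvPolynomial.le_totalDegree h1
  rw [Finsupp.sum_add_index' (fun _ => rfl) (fun _ _ _ => rfl),
    Finsupp.sum_single_index rfl] at h2
  omega

theorem eq_C_of_pderiv_eq_zero {κ : Type} (P : MvPolynomial κ ℚ)
    (h : ∀ k, pderiv k P = 0) : P = C (coeff 0 P) := by
  classical
  ext m
  rw [MvPolynomial.coeff_C]
  split_ifs with h0
  · rw [h0]
  · obtain ⟨k, hk⟩ : ∃ k, m k ≠ 0 := by
      by_contra hc
      push Not at hc
      exact h0 (by ext k; simp [hc k])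
    have h1 := MvPolynomial.coeff_pderiv (i := k) P (m - Finsupp.single k 1)
    have h2 : m - Finsupp.single k 1 + Finsupp.single k 1 = m := by
      refine tsub_add_cancel_of_le ?_
      rw [Finsupp.single_le_iff]
      omega
    rw [h k, h2, MvPolynomial.coeff_zero] at h1
    rcases mul_eq_zero.mp h1.symm with h3 | h3
    · exact h3
    · exfalso
      have : (0 : ℚ) < ((m - Finsupp.single k 1 : κ →₀ ℕ) k : ℚ) + 1 := by positivity
      exact this.ne' h3

theorem algIndep_of_grad {ι κ : Type} [Fintype ι] [Fintype κ] (F : κ → MvPolynomial ι ℚ)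
    (z : ι → ℝ) (hz : AlgebraicIndependent ℚ z)
    (h : LinearIndependent ℝ (fun k => grad (F k) z)) :
    AlgebraicIndependent ℚ (fun k => MvPolynomial.aeval z (F k)) := by
  classical
  have key : ∀ n : ℕ, ∀ P : MvPolynomial κ ℚ, P.totalDegree ≤ n →
      MvPolynomial.aeval (fun k => MvPolynomial.aeval z (F k)) P = 0 → P = 0 := by
    intro n
    induction n with
    | zero =>
      intro P hP h0
      have h1 : P = C (coeff 0 P) := by
        refine MvPolynomial.totalDegree_eq_zero_iff_eq_C.mp (by omega)
      rw [h1, MvPolynomial.aeval_C] at h0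
      have h2 : coeff 0 P = 0 := by
        exact (algebraMap ℚ ℝ).injective (by rw [h0, map_zero])
      rw [h1, h2, map_zero]
    | succ n ih =>
      intro P hP h0
      have hval : MvPolynomial.aeval z (MvPolynomial.aeval F P) = 0 := by
        rw [← AlgHom.comp_apply, MvPolynomial.comp_aeval]
        exact h0
      have hF : MvPolynomial.aeval F P = 0 := by
        refine hz ?_
        rw [hval, map_zero]
      have h3 : ∀ k, MvPolynomial.aeval (fun k => MvPolynomial.aeval z (F k))
          (pderiv k P) = 0 := by
        refine Fintype.linearIndependent_iff.mp h _ ?_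
        ext i
        have h4 := aeval_pderiv_aeval F z P i
        rw [hF, map_zero, map_zero] at h4
        simp only [Finset.sum_apply, Pi.smul_apply, smul_eq_mul, Pi.zero_apply]
        exact h4.symm
      have h5 : ∀ k, pderiv k P = 0 := fun k =>
        ih _ (totalDegree_pderiv_le P k n hP) (h3 k)
      have h1 := eq_C_of_pderiv_eq_zero P h5
      rw [h1, MvPolynomial.aeval_C] at h0
      have h2 : coeff 0 P = 0 := by
        exact (algebraMap ℚ ℝ).injective (by rw [h0, map_zero])
      rw [h1, h2, map_zero]
  intro P Q hPQ
  have := key _ (P - Q) le_rfl (by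
    rw [map_sub, sub_eq_zero]
    exact hPQ)
  exact sub_eq_zero.mp this

end Pool.Agent.Helper36.JJ
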